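import Mathlib
import Pool.Agent.Helper141.ZO4

set_option autoImplicit false

open Polynomial

namespace Pool.Agent.Results.MP_997b73_pr.TotallyRealDifference

/-- Extreme points of the support of a finitely supported function with nonzero sum. -/
theorem extremes (S : Finset ℤ) (p : ℤ → ℝ) (hpS : ∀ a, a ∉ S → p a = 0)
    (hs : ∑ a ∈ S, p a = 1) :
    ∃ a0 a1 : ℤ, p a0 ≠ 0 ∧ p a1 ≠ 0 ∧ ∀ a, p a ≠ 0 → a0 ≤ a ∧ a ≤ a1 := by
  classical
  set U := S.filter (fun a => p a ≠ 0) with hU
  have hmem : ∀ a, p a ≠ 0 → a ∈ U := by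
    intro a ha
    rw [hU, Finset.mem_filter]
    exact ⟨by_contra fun h => ha (hpS a h), ha⟩
  have hne : U.Nonempty := by
    by_contra h
    rw [Finset.not_nonempty_iff_eq_empty] at h
    have : ∑ a ∈ S, p a = 0 := Finset.sum_eq_zero fun a _ => by
      by_contra h2
      have := hmem a h2
      rw [h] at this
      exact absurd this (Finset.notMem_empty a)
    rw [this] at hs
    exact zero_ne_one hs
  refine ⟨U.min' hne, U.max' hne, ?_, ?_, fun a ha => ⟨U.min'_le a (hmem a ha), U.le_max' a (hmem a ha)⟩⟩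
  · exact (Finset.mem_filter.mp (U.min'_mem hne)).2
  · exact (Finset.mem_filter.mp (U.max'_mem hne)).2

theorem sum_shift (S : Finset ℤ) (p g : ℤ → ℝ) (a0 : ℤ) (k : ℕ) (hpS : ∀ a, a ∉ S → p a = 0)
    (h : ∀ a, p a * g a ≠ 0 → a0 ≤ a ∧ a ≤ a0 + k) :
    ∑ a ∈ S, p a * g a = ∑ i ∈ Finset.range (k + 1), p (a0 + i) * g (a0 + i) := by
  classical
  have h1 : ∑ a ∈ S, p a * g a = ∑ a ∈ S ∪ Finset.Icc a0 (a0 + k), p a * g a := by
    refine Finset.sum_subset Finset.subset_union_left fun a _ ha => ?_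
    rw [hpS a ha, zero_mul]
  have h2 : ∑ a ∈ Finset.Icc a0 (a0 + k), p a * g a
      = ∑ a ∈ S ∪ Finset.Icc a0 (a0 + k), p a * g a := by
    refine Finset.sum_subset Finset.subset_union_right fun a _ ha => ?_
    by_contra h3
    exact ha (Finset.mem_Icc.mpr (h a h3))
  rw [h1, ← h2]
  refine Finset.sum_nbij' (fun a => (a - a0).toNat) (fun i : ℕ => a0 + (i : ℤ)) ?_ ?_ ?_ ?_ ?_
  · intro a ha
    rw [Finset.mem_Icc] at ha
    rw [Finset.mem_range]; omega
  · intro i hi
    rw [Finset.mem_range] at hi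
    rw [Finset.mem_Icc]; omega
  · intro a ha
    rw [Finset.mem_Icc] at ha
    show a0 + ((a - a0).toNat : ℤ) = a
    omega
  · intro i _
    show (a0 + (i : ℤ) - a0).toNat = i
    omega
  · intro a ha
    rw [Finset.mem_Icc] at ha
    have : a0 + ((a - a0).toNat : ℤ) = a := by omega
    show p a * g a = p (a0 + ((a - a0).toNat : ℤ)) * g (a0 + ((a - a0).toNat : ℤ))
    rw [this]

/-- If `X`, `Y` are independent and `X + Y` is uniform on its support, and every value
`ℙ(X - Y = k)` is a totally real number, then `X` and `Y` are uniform on their supports. -/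
theorem result :
    ∀ (S T : Finset ℤ) (p q : ℤ → ℝ),
      (∀ a, 0 ≤ p a) → (∀ b, 0 ≤ q b) →
      (∀ a, a ∉ S → p a = 0) → (∀ b, b ∉ T → q b = 0) →
      (∑ a ∈ S, p a = 1) → (∑ b ∈ T, q b = 1) →
      (∀ n m : ℤ, (∑ a ∈ S, p a * q (n - a)) ≠ 0 →
          (∑ a ∈ S, p a * q (m - a)) ≠ 0 →
          (∑ a ∈ S, p a * q (n - a)) = ∑ a ∈ S, p a * q (m - a)) →
      (∀ k : ℤ, ∀ z : ℂ, aeval z (minpoly ℚ (∑ a ∈ S, p a * q (a - k))) = 0 → z.im = 0) →
      (∀ a a' : ℤ, p a ≠ 0 → p a' ≠ 0 → p a = p a') ∧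
      (∀ b b' : ℤ, q b ≠ 0 → q b' ≠ 0 → q b = q b') := by
  classical
  intro S T p q hp hq hpS hqT hps hqs hconv htr
  obtain ⟨a0, a1, ha0, ha1, hab⟩ := extremes S p hpS hps
  obtain ⟨b0, b1, hb0, hb1, hbb⟩ := extremes T q hqT hqs
  obtain ⟨m, hm⟩ : ∃ m : ℕ, (m : ℤ) = a1 - a0 := ⟨(a1 - a0).toNat, by have := (hab a0 ha0).2; omega⟩
  obtain ⟨n, hn⟩ : ∃ n : ℕ, (n : ℤ) = b1 - b0 := ⟨(b1 - b0).toNat, by have := (hbb b0 hb0).2; omega⟩
  set P : ℝ[X] := ∑ i ∈ Finset.range (m + 1), monomial i (p (a0 + i) / p a1) with hPdef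
  set Q : ℝ[X] := ∑ i ∈ Finset.range (n + 1), monomial i (q (b0 + i) / q b1) with hQdef
  have hPc : ∀ i : ℕ, P.coeff i = p (a0 + i) / p a1 := by
    intro i
    rw [hPdef, finsetSum_coeff]
    simp only [coeff_monomial]
    rw [Finset.sum_ite_eq' (Finset.range (m + 1)) i (fun j : ℕ => p (a0 + j) / p a1)]
    split_ifs with h
    · rfl
    · have : p (a0 + i) = 0 := by
        by_contra h2
        have := (hab _ h2).2
        rw [Finset.mem_range] at h
        omega
      rw [this, zero_div]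
  have hQc : ∀ i : ℕ, Q.coeff i = q (b0 + i) / q b1 := by
    intro i
    rw [hQdef, finsetSum_coeff]
    simp only [coeff_monomial]
    rw [Finset.sum_ite_eq' (Finset.range (n + 1)) i (fun j : ℕ => q (b0 + j) / q b1)]
    split_ifs with h
    · rfl
    · have : q (b0 + i) = 0 := by
        by_contra h2
        have := (hbb _ h2).2
        rw [Finset.mem_range] at h
        omega
      rw [this, zero_div]
  have hPdeg : P.natDegree ≤ m := by
    rw [natDegree_le_iff_coeff_eq_zero]
    intro i hi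
    rw [hPc]
    have : p (a0 + i) = 0 := by
      by_contra h2
      have := (hab _ h2).2
      omega
    rw [this, zero_div]
  have hQdeg : Q.natDegree ≤ n := by
    rw [natDegree_le_iff_coeff_eq_zero]
    intro i hi
    rw [hQc]
    have : q (b0 + i) = 0 := by
      by_contra h2
      have := (hbb _ h2).2
      omega
    rw [this, zero_div]
  have hPm1 : P.coeff m = 1 := by
    rw [hPc, show a0 + (m : ℤ) = a1 by omega, div_self ha1]
  have hQn1 : Q.coeff n = 1 := by
    rw [hQc, show b0 + (n : ℤ) = b1 by omega, div_self hb1]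
  have hPmon : P.Monic := monic_of_natDegree_le_of_coeff_eq_one m hPdeg hPm1
  have hQmon : Q.Monic := monic_of_natDegree_le_of_coeff_eq_one n hQdeg hQn1
  have hPnd : P.natDegree = m := natDegree_eq_of_le_of_coeff_ne_zero hPdeg (by rw [hPm1]; exact one_ne_zero)
  have hQnd : Q.natDegree = n := natDegree_eq_of_le_of_coeff_ne_zero hQdeg (by rw [hQn1]; exact one_ne_zero)
  set c : ℝ := p a1 * q b1 with hc
  have hc0 : c ≠ 0 := mul_ne_zero ha1 hb1
  -- coefficients of the product
  have hPQ : ∀ k : ℕ, (P * Q).coeff k = (∑ a ∈ S, p a * q ((a0 + b0 + k) - a)) / c := by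
    intro k
    rw [sum_shift S p (fun a => q ((a0 + b0 + k) - a)) a0 k hpS ?_, coeff_mul,
      Finset.Nat.sum_antidiagonal_eq_sum_range_succ_mk, Finset.sum_div]
    · refine Finset.sum_congr rfl fun i hi => ?_
      have hi' : i ≤ k := by simpa [Nat.lt_succ_iff] using hi
      simp only [hPc, hQc]
      have e : b0 + ((k - i : ℕ) : ℤ) = a0 + b0 + (k : ℤ) - (a0 + (i : ℤ)) := by
        rw [Nat.cast_sub hi']; ring
      rw [e, hc]
      field_simp
    · intro a ha
      have h1 := hab a (left_ne_zero_of_mul ha)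
      have h2 := hbb _ (right_ne_zero_of_mul ha)
      constructor
      · exact h1.1
      · linarith [h2.1]
  have htop : (∑ a ∈ S, p a * q ((a0 + b0 + ((m + n : ℕ) : ℤ)) - a)) = c := by
    have h1 := hPQ (m + n)
    have h2 : (P * Q).coeff (m + n) = 1 := by
      have h3 := (hPmon.mul hQmon).coeff_natDegree
      rwa [hPmon.natDegree_mul hQmon, hPnd, hQnd] at h3
    rw [h2] at h1
    field_simp at h1
    linarith
  have hR : ∀ k, (P * Q).coeff k = 0 ∨ (P * Q).coeff k = 1 := by
    intro k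
    rw [hPQ k]
    by_cases h : (∑ a ∈ S, p a * q ((a0 + b0 + k) - a)) = 0
    · left; rw [h, zero_div]
    · right
      rw [hconv _ (a0 + b0 + ((m + n : ℕ) : ℤ)) h (by rw [htop]; exact hc0), htop, div_self hc0]
  -- coefficients of `A = P * reflect n Q`
  have hQr : ∀ j : ℕ, (reflect n Q).coeff j = q (b1 - j) / q b1 := by
    intro j
    rw [coeff_reflect, hQc]
    rcases le_or_gt j n with h | h
    · rw [revAt_le h, Nat.cast_sub h]
      congr 2
      omega
    · rw [revAt_eq_self_of_lt h]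
      have e1 : q (b0 + j) = 0 := by
        by_contra h2
        have := (hbb _ h2).2
        omega
      have e2 : q (b1 - j) = 0 := by
        by_contra h2
        have := (hbb _ h2).1
        omega
      rw [e1, e2]
  have hA : ∀ k : ℕ, (P * reflect n Q).coeff k
      = (∑ a ∈ S, p a * q (a - (a0 - b1 + k))) / c := by
    intro k
    rw [sum_shift S p (fun a => q (a - (a0 - b1 + k))) a0 k hpS ?_, coeff_mul,
      Finset.Nat.sum_antidiagonal_eq_sum_range_succ_mk, Finset.sum_div]
    · refine Finset.sum_congr rfl fun i hi => ?_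
      have hi' : i ≤ k := by simpa [Nat.lt_succ_iff] using hi
      simp only [hPc, hQr]
      have e : b1 - ((k - i : ℕ) : ℤ) = a0 + (i : ℤ) - (a0 - b1 + (k : ℤ)) := by
        rw [Nat.cast_sub hi']; ring
      rw [e, hc]
      field_simp
    · intro a ha
      have h1 := hab a (left_ne_zero_of_mul ha)
      have h2 := hbb _ (right_ne_zero_of_mul ha)
      constructor
      · exact h1.1
      · linarith [h2.2]
  -- `1 / c` is a natural number
  obtain ⟨N, hN⟩ : ∃ N : ℕ, 1 / c = (N : ℝ) := by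
    have e1 : P.eval 1 = 1 / p a1 := by
      rw [eval_eq_sum_range' (n := m + 1) (by omega)]
      have h1 := sum_shift S p (fun _ => 1 / p a1) a0 m hpS (by
        intro a ha
        have h1 := hab a (left_ne_zero_of_mul ha)
        exact ⟨h1.1, by omega⟩)
      rw [← Finset.sum_mul, hps, one_mul] at h1
      rw [h1]
      refine Finset.sum_congr rfl fun i _ => ?_
      rw [hPc, one_pow]; ring
    have e2 : Q.eval 1 = 1 / q b1 := by
      rw [eval_eq_sum_range' (n := n + 1) (by omega)]
      have h1 := sum_shift T q (fun _ => 1 / q b1) b0 n hqT (by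
        intro a ha
        have h1 := hbb a (left_ne_zero_of_mul ha)
        exact ⟨h1.1, by omega⟩)
      rw [← Finset.sum_mul, hqs, one_mul] at h1
      rw [h1]
      refine Finset.sum_congr rfl fun i _ => ?_
      rw [hQc, one_pow]; ring
    have e3 : (P * Q).eval 1 = 1 / c := by
      rw [eval_mul, e1, e2, hc]; field_simp
    have e4 : (P * Q).eval 1 = ∑ k ∈ Finset.range (m + n + 1), (P * Q).coeff k := by
      rw [eval_eq_sum_range' (n := m + n + 1) (by
        rw [hPmon.natDegree_mul hQmon, hPnd, hQnd]; omega)]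
      simp
    have hch : ∀ k, ∃ N : ℕ, (P * Q).coeff k = N := by
      intro k
      rcases hR k with h | h <;> rw [h]
      · exact ⟨0, by simp⟩
      · exact ⟨1, by simp⟩
    choose N hN using hch
    refine ⟨∑ k ∈ Finset.range (m + n + 1), N k, ?_⟩
    rw [← e3, e4, Nat.cast_sum]
    exact Finset.sum_congr rfl fun k _ => hN k
  -- the totally real field
  set x : ℕ → ℝ := fun k => ∑ a ∈ S, p a * q (a - (a0 - b1 + k)) with hx
  set V : Set ℝ := Set.range (fun k : Fin (m + n + 1) => x k) with hV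
  have hVtr : ∀ y ∈ V, ∀ z : ℂ, aeval z (minpoly ℚ y) = 0 → z.im = 0 := by
    rintro y ⟨k, rfl⟩ z hz
    exact htr (a0 - b1 + ((k : ℕ) : ℤ)) z hz
  have hVint : ∀ y ∈ V, IsIntegral ℚ y := by
    intro y hy
    by_contra h
    have h1 := hVtr y hy Complex.I (by rw [minpoly.eq_zero h]; simp)
    simp at h1
  have hAV : ∀ k, (P * reflect Q.natDegree Q).coeff k ∈ IntermediateField.adjoin ℚ V := by
    intro k
    rw [hQnd, hA k, div_eq_mul_one_div, hN]
    refine mul_mem ?_ (natCast_mem _ N)
    by_cases hk : k < m + n + 1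
    · exact IntermediateField.subset_adjoin ℚ V ⟨⟨k, hk⟩, rfl⟩
    · have : (∑ a ∈ S, p a * q (a - (a0 - b1 + k))) = 0 := by
        refine Finset.sum_eq_zero fun a _ => ?_
        by_contra h
        have h1 := hab a (left_ne_zero_of_mul h)
        have h2 := hbb _ (right_ne_zero_of_mul h)
        omega
      rw [this]; exact zero_mem _
  have hp' : ∀ i, 0 ≤ P.coeff i := fun i => by rw [hPc]; exact div_nonneg (hp _) (hp _)
  have hq' : ∀ i, 0 ≤ Q.coeff i := fun i => by rw [hQc]; exact div_nonneg (hq _) (hq _)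
  have hfin := Pool.Agent.Helper141.ZeroOne.main_gen P Q hPmon hQmon hp' hq' hR V hVint hVtr hAV
  have hpa : ∀ a, p a ≠ 0 → p a = p a1 := by
    intro a ha
    have h1 := hab a ha
    have h2 := hfin.1 (a - a0).toNat
    rw [hPc, show a0 + ((a - a0).toNat : ℤ) = a by omega] at h2
    rcases h2 with h2 | h2
    · rw [div_eq_zero_iff] at h2
      rcases h2 with h2 | h2
      · exact absurd h2 ha
      · exact absurd h2 ha1
    · rwa [div_eq_one_iff_eq ha1] at h2
  have hqa : ∀ b, q b ≠ 0 → q b = q b1 := by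
    intro b hb
    have h1 := hbb b hb
    have h2 := hfin.2 (b - b0).toNat
    rw [hQc, show b0 + ((b - b0).toNat : ℤ) = b by omega] at h2
    rcases h2 with h2 | h2
    · rw [div_eq_zero_iff] at h2
      rcases h2 with h2 | h2
      · exact absurd h2 hb
      · exact absurd h2 hb1
    · rwa [div_eq_one_iff_eq hb1] at h2
  exact ⟨fun a a' ha ha' => by rw [hpa a ha, hpa a' ha'],
    fun b b' hb hb' => by rw [hqa b hb, hqa b' hb']⟩

end Pool.Agent.Results.MP_997b73_pr.TotallyRealDifference
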